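import Pool.Agent.H.MP_75202e_al.Ohn

set_option autoImplicit false

namespace Pool.Agent.H.MP_75202e_al

universe u

structure Ctx (B R M K : Type u) [AddCommGroup B] [Module ℚ B] [CommRing R] [AddCommGroup M]
    [Module R M] [AddCommGroup K] [Module R K] where
  e : B → R
  e_add : ∀ a b, e (a + b) = e a * e b
  e_zero : e 0 = 1
  one : K
  bd : M →ₗ[R] K
  tf : ∀ (b : B) (k : K), b ≠ 0 → (e b - 1) • k = 0 → k = 0
  tfS : ∀ (ι : Type) [Fintype ι] [Nonempty ι] (x : ι → B) (k : K), (∑ j, e (x j)) • k = 0 → k = 0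
  inj : ∀ (ι : Type) [Fintype ι] [Nonempty ι] (x : ι → B) (m : M), (∑ j, e (x j)) • m = 0 → m = 0
  surj : ∀ (ι : Type) [Fintype ι] [Nonempty ι] (x : ι → B) (m : M), ∃ m', (∑ j, e (x j)) • m' = m

variable {B R M K : Type u} [AddCommGroup B] [Module ℚ B] [CommRing R] [AddCommGroup M]
  [Module R M] [AddCommGroup K] [Module R K] (C : Ctx B R M K)

@[ext] structure DD where
  m : M
  b : B
  h : C.bd m = (C.e b - 1) • C.one

instance : Mul (DD C) := ⟨fun x y => ⟨x.m + C.e x.b • y.m, x.b + y.b, by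
  rw [map_add, map_smul, x.h, y.h, C.e_add]; module⟩⟩
instance : One (DD C) := ⟨⟨0, 0, by simp [C.e_zero]⟩⟩
instance : Inv (DD C) := ⟨fun x => ⟨-(C.e (-x.b) • x.m), -x.b, by
  have : C.e (-x.b) * C.e x.b = 1 := by rw [← C.e_add, neg_add_cancel, C.e_zero]
  rw [map_neg, map_smul, x.h, smul_smul, mul_sub, this]; module⟩⟩

@[simp] lemma mul_m (x y : DD C) : (x * y).m = x.m + C.e x.b • y.m := rfl
@[simp] lemma mul_b (x y : DD C) : (x * y).b = x.b + y.b := rfl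
@[simp] lemma one_m : (1 : DD C).m = 0 := rfl
@[simp] lemma one_b : (1 : DD C).b = 0 := rfl
@[simp] lemma inv_m (x : DD C) : (x⁻¹).m = -(C.e (-x.b) • x.m) := rfl
@[simp] lemma inv_b (x : DD C) : (x⁻¹).b = -x.b := rfl

instance : Group (DD C) := Group.ofLeftAxioms
  (fun x y z => by
    ext
    · simp only [mul_m, mul_b, C.e_add]; module
    · simp only [mul_b, add_assoc])
  (fun x => by ext <;> simp [C.e_zero])
  (fun x => by ext <;> simp)

lemma conj_b (d x : DD C) : (d * x * d⁻¹).b = x.b := by simp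
lemma conj_m (d x : DD C) : (d * x * d⁻¹).m = C.e d.b • x.m - (C.e x.b - 1) • d.m := by
  simp only [mul_m, mul_b, inv_m, smul_neg, smul_smul, ← C.e_add]
  rw [show d.b + x.b + -d.b = x.b by abel]
  module

lemma e_nsmul (n : ℕ) (b : B) : C.e (n • b) = C.e b ^ n := by
  induction n with
  | zero => simp [C.e_zero]
  | succ n ih => rw [succ_nsmul, C.e_add, ih, pow_succ]

lemma geom (n : ℕ) (b : B) : C.e (n • b) - 1 = (C.e b - 1) * ∑ i : Fin n, C.e ((i : ℕ) • b) := by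
  simp only [e_nsmul]
  rw [Fin.sum_univ_eq_sum_range (fun i => C.e b ^ i), mul_geom_sum]

lemma pow_mb (x : DD C) (n : ℕ) :
    (x ^ n).m = (∑ i : Fin n, C.e ((i : ℕ) • x.b)) • x.m ∧ (x ^ n).b = n • x.b := by
  induction n with
  | zero => simp
  | succ n ih =>
    rw [pow_succ, mul_m, mul_b, ih.1, ih.2, Fin.sum_univ_castSucc, succ_nsmul, add_smul]
    exact ⟨rfl, rfl⟩

lemma nsmul_inj {n : ℕ} (hn : n ≠ 0) {b : B} (h : n • b = 0) : b = 0 := by
  rw [← Nat.cast_smul_eq_nsmul ℚ] at h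
  exact (smul_eq_zero.1 h).resolve_left (Nat.cast_ne_zero.2 hn)

lemma divisible (d : DD C) (n : ℕ) (hn : 0 < n) : ∃ x : DD C, x ^ n = d := by
  haveI : Nonempty (Fin n) := ⟨⟨0, hn⟩⟩
  set μ : B := (n : ℚ)⁻¹ • d.b with hμ
  have hb : n • μ = d.b := by
    rw [hμ, ← Nat.cast_smul_eq_nsmul ℚ, smul_smul, mul_inv_cancel₀ (Nat.cast_ne_zero.2 hn.ne'),
      one_smul]
  obtain ⟨m', hm'⟩ := C.surj (Fin n) (fun i => (i : ℕ) • μ) d.m
  refine ⟨⟨m', μ, ?_⟩, ?_⟩
  · rw [← sub_eq_zero]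
    apply C.tfS (Fin n) (fun i => (i : ℕ) • μ)
    rw [smul_sub, ← map_smul, hm', d.h, ← hb, geom, smul_smul, mul_comm, sub_self]
  · ext
    · rw [(pow_mb C _ n).1]; exact hm'
    · rw [(pow_mb C _ n).2]; exact hb

lemma T1 (x z : DD C) (hz : z ∈ SS x) : ∃ (ι : Type) (_ : Fintype ι) (_ : Nonempty ι) (c : ι → B)
    (w : M), z.m = (∑ j, C.e (c j)) • x.m - (C.e x.b - 1) • w ∧ z.b = Fintype.card ι • x.b := by
  induction hz using Subsemigroup.closure_induction with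
  | mem y hy =>
    obtain ⟨d, rfl⟩ := hy
    exact ⟨Unit, inferInstance, inferInstance, fun _ => d.b, d.m, by simp [conj_m, -mul_m],
      by simp⟩
  | mul a b _ _ ha hb =>
    obtain ⟨ι, _, _, c, w, h1, h2⟩ := ha
    obtain ⟨κ, _, _, c', w', h1', h2'⟩ := hb
    refine ⟨ι ⊕ κ, inferInstance, inferInstance, Sum.elim c fun j => a.b + c' j,
      w + C.e a.b • w', ?_, ?_⟩
    · simp only [mul_m, h1, h1', Fintype.sum_sum_type, Sum.elim_inl, Sum.elim_inr, C.e_add,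
        ← Finset.mul_sum]
      module
    · rw [mul_b, h2, h2', Fintype.card_sum, add_smul]

lemma T2 (hs : ∀ b : B, ∃ d : DD C, d.b = b) (x : DD C) {ι : Type} (c : ι → B) (s : Finset ι)
    (hne : s.Nonempty) : ∃ z ∈ SS x, ∃ w : M,
      z.m = (∑ j ∈ s, C.e (c j)) • x.m - (C.e x.b - 1) • w ∧ z.b = s.card • x.b := by
  induction hne using Finset.Nonempty.cons_induction with
  | singleton a =>
    obtain ⟨d, hd⟩ := hs (c a)
    exact ⟨d * x * d⁻¹, Subsemigroup.subset_closure ⟨d, rfl⟩, d.m, by simp [conj_m, -mul_m, hd],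
      by simp⟩
  | cons a s ha _ ih =>
    obtain ⟨d, hd⟩ := hs (c a)
    obtain ⟨z, hz, w, h1, h2⟩ := ih
    refine ⟨d * x * d⁻¹ * z, (SS x).mul_mem (Subsemigroup.subset_closure ⟨d, rfl⟩) hz,
      d.m + C.e x.b • w - (∑ j ∈ s, C.e (c j)) • x.m, ?_, ?_⟩
    · rw [mul_m, conj_m, conj_b, h1, hd, Finset.sum_cons]
      module
    · rw [mul_b, conj_b, h2, Finset.card_cons, succ_nsmul']

lemma H1 (x : DD C) (hx : x ≠ 1) : (1 : DD C) ∉ SS x := by
  intro h
  obtain ⟨ι, _, _, c, w, h1, h2⟩ := T1 C x 1 h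
  have hb : x.b = 0 := nsmul_inj Fintype.card_ne_zero h2.symm
  rw [hb, C.e_zero, sub_self, zero_smul, sub_zero] at h1
  exact hx (DD.ext (C.inj ι c _ h1.symm) hb)

lemma H2 (hs : ∀ b : B, ∃ d : DD C, d.b = b) (x : DD C) :
    ∀ b ∈ SS x, ∀ c ∈ SS x, ∃ z ∈ SS b, z ∈ SS c := by
  intro b hb c hc
  obtain ⟨ι, _, _, cb, w, h1, h2⟩ := T1 C x b hb
  obtain ⟨κ, _, _, cc, w', h1', h2'⟩ := T1 C x c hc
  obtain ⟨z1, hz1, w1, g1, g2⟩ := T2 C hs b cc Finset.univ Finset.univ_nonempty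
  obtain ⟨z2, hz2, w2, g1', g2'⟩ := T2 C hs c cb Finset.univ Finset.univ_nonempty
  rw [Finset.card_univ] at g2 g2'
  have hbb : z1.b = z2.b := by rw [g2, g2', h2, h2', smul_comm]
  obtain ⟨v, hv⟩ : ∃ v : M, z1.m - z2.m = (C.e x.b - 1) • v := by
    refine ⟨-((∑ j, C.e (cc j)) • w) - (∑ i : Fin (Fintype.card ι), C.e ((i : ℕ) • x.b)) • w1
      + (∑ j, C.e (cb j)) • w' + (∑ i : Fin (Fintype.card κ), C.e ((i : ℕ) • x.b)) • w2, ?_⟩
    rw [g1, g1', h1, h1', h2, h2', geom, geom]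
    module
  by_cases hβ : x.b = 0
  · rw [hβ, C.e_zero, sub_self, zero_smul, sub_eq_zero] at hv
    exact ⟨z1, hz1, (DD.ext hv hbb : z1 = z2) ▸ hz2⟩
  · have hv0 : C.bd v = 0 := by
      apply C.tf _ _ hβ
      rw [← map_smul, ← hv, map_sub, z1.h, z2.h, hbb, sub_self]
    have hpos : 0 < Fintype.card κ * Fintype.card ι :=
      Nat.mul_pos Fintype.card_pos Fintype.card_pos
    haveI : Nonempty (Fin (Fintype.card κ * Fintype.card ι)) := ⟨⟨0, hpos⟩⟩
    obtain ⟨a, ha⟩ := C.surj (Fin (Fintype.card κ * Fintype.card ι)) (fun i => (i : ℕ) • x.b) v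
    have ha0 : C.bd a = 0 := by
      apply C.tfS (Fin (Fintype.card κ * Fintype.card ι)) (fun i => (i : ℕ) • x.b)
      rw [← map_smul, ha, hv0]
    let d : DD C := ⟨a, 0, by simp [ha0, C.e_zero]⟩
    refine ⟨d * z1 * d⁻¹, SS_conj hz1 d, ?_⟩
    have : d * z1 * d⁻¹ = z2 := by
      ext
      · rw [conj_m, g2, h2, smul_smul, geom, mul_smul]
        change C.e 0 • z1.m - _ • _ • a = _
        rw [ha, C.e_zero, one_smul, ← hv]; abel
      · rw [conj_b, hbb]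
    rw [this]; exact hz2

end Pool.Agent.H.MP_75202e_al
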