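import Pool.Agent.H.MP_75202e_al.DD

set_option autoImplicit false
open scoped IsMulCommutative

namespace Pool.Agent.H.MP_75202e_al

universe u

variable {G B : Type u} [Group G] [AddCommGroup B] [Module ℚ B] (π : G →* Multiplicative B)

def p (g : G) : B := (π g).toAdd

lemma p_mul (g h : G) : p π (g * h) = p π g + p π h := by simp [p]
lemma p_inv (g : G) : p π g⁻¹ = - p π g := by simp [p]
lemma p_one : p π 1 = 0 := by simp [p]
lemma mem_ker_iff (g : G) : g ∈ π.ker ↔ p π g = 0 := by simp [p]

lemma exists_sec : ∃ σ : B → G, ∀ x g, p π (σ (x + p π g)) = p π (σ x) + p π g := by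
  let H : AddSubgroup B :=
    { carrier := Set.range (p π)
      add_mem' := by rintro _ _ ⟨a, rfl⟩ ⟨b, rfl⟩; exact ⟨a * b, p_mul π a b⟩
      zero_mem' := ⟨1, p_one π⟩
      neg_mem' := by rintro _ ⟨a, rfl⟩; exact ⟨a⁻¹, p_inv π a⟩ }
  have : ∀ x : B, ∃ g, p π g = -(QuotientAddGroup.mk x : B ⧸ H).out + x := fun x =>
    (QuotientAddGroup.eq (s := H)).1 (QuotientAddGroup.out_eq' _)
  choose σ hσ using this
  refine ⟨σ, fun x g => ?_⟩
  have : (QuotientAddGroup.mk (x + p π g) : B ⧸ H) = QuotientAddGroup.mk x :=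
    QuotientAddGroup.mk_add_of_mem x ⟨g, rfl⟩
  rw [hσ, hσ, this, add_assoc]

noncomputable def σ : B → G := (exists_sec π).choose
lemma hσ (x : B) (g : G) : p π (σ π (x + p π g)) = p π (σ π x) + p π g :=
  (exists_sec π).choose_spec x g

abbrev RR (B : Type u) := AddMonoidAlgebra ℤ B

noncomputable def e (x : B) : RR B := AddMonoidAlgebra.single x 1

omit [Module ℚ B] in
lemma e_add (a b : B) : e (a + b) = e a * e b := by simp [e, AddMonoidAlgebra.single_mul_single]
omit [Module ℚ B] in
lemma e_zero : e (0 : B) = 1 := rfl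

noncomputable def ext {C : Type u} [AddCommGroup C] (f : B → C) : RR B →+ C :=
  (Finsupp.liftAddHom fun x => zmultiplesHom C (f x)).comp
    (AddMonoidAlgebra.coeffAddEquiv (R := ℤ) (M := B)).toAddMonoidHom

omit [AddCommGroup B] [Module ℚ B] in
@[simp] lemma ext_e {C : Type u} [AddCommGroup C] (f : B → C) (x : B) : ext f (e x) = f x := by
  simp [ext, e]

omit [AddCommGroup B] [Module ℚ B] in
lemma R_ext {C : Type u} [AddCommGroup C] (f g : RR B →+ C) (h : ∀ x, f (e x) = g (e x)) :
    f = g := by
  apply AddMonoidAlgebra.addHom_ext'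
  intro x
  ext
  exact h x

noncomputable def rel (g h : G) : G →₀ RR B :=
  Finsupp.single (g * h) 1 - Finsupp.single g 1 - Finsupp.single h (e (p π g))

noncomputable def NN : Submodule (RR B) (G →₀ RR B) :=
  Submodule.span _ {v | ∃ g h, v = rel π g h}

abbrev M2 := (G →₀ RR B) ⧸ NN π

noncomputable def μ (g : G) : M2 π := Submodule.Quotient.mk (Finsupp.single g 1)

lemma μ_mul (g h : G) : μ π (g * h) = μ π g + e (p π g) • μ π h := by
  have : (Submodule.Quotient.mk (rel π g h) : M2 π) = 0 :=
    (Submodule.Quotient.mk_eq_zero _).2 (Submodule.subset_span ⟨g, h, rfl⟩)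
  rw [rel, Submodule.Quotient.mk_sub, Submodule.Quotient.mk_sub, ← Finsupp.smul_single_one h,
    Submodule.Quotient.mk_smul] at this
  simp only [μ]
  linear_combination (norm := module) this

noncomputable def bd : M2 π →ₗ[RR B] RR B :=
  (NN π).liftQ (Finsupp.linearCombination _ fun g => e (p π g) - 1) (by
    rw [NN, Submodule.span_le]
    rintro _ ⟨g, h, rfl⟩
    simp only [SetLike.mem_coe, LinearMap.mem_ker, rel, map_sub, Finsupp.linearCombination_single,
      p_mul, e_add, smul_eq_mul]
    ring)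

lemma bd_μ (g : G) : bd π (μ π g) = e (p π g) - 1 := by simp [bd, μ]

lemma M_ext {C : Type u} [AddCommGroup C] (f g : M2 π →+ C)
    (h : ∀ (x : B) a, f (e x • μ π a) = g (e x • μ π a)) : f = g := by
  have h1 : ∀ a (r : RR B), f (r • μ π a) = g (r • μ π a) := by
    intro a r
    have := R_ext (f.comp (LinearMap.toSpanSingleton (RR B) _ (μ π a)).toAddMonoidHom)
      (g.comp (LinearMap.toSpanSingleton (RR B) _ (μ π a)).toAddMonoidHom) (fun x => h x a)
    exact DFunLike.congr_fun this r
  ext v
  obtain ⟨v, rfl⟩ := Submodule.Quotient.mk_surjective _ v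
  induction v using Finsupp.induction_linear with
  | zero => simp
  | add a b ha hb => rw [Submodule.Quotient.mk_add, map_add, map_add, ha, hb]
  | single a r =>
    rw [← Finsupp.smul_single_one, Submodule.Quotient.mk_smul]
    exact h1 a r

def val (a : Additive π.ker) : G := (a.toMul : π.ker)

omit [Module ℚ B] in
lemma val_inj {a b : Additive π.ker} (h : val π a = val π b) : a = b := Subtype.ext h
omit [Module ℚ B] in
@[simp] lemma val_add (a b : Additive π.ker) : val π (a + b) = val π a * val π b := rfl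
omit [Module ℚ B] in
@[simp] lemma val_neg (a : Additive π.ker) : val π (-a) = (val π a)⁻¹ := rfl
omit [Module ℚ B] in
@[simp] lemma val_zero : val π 0 = 1 := rfl
lemma p_val (a : Additive π.ker) : p π (val π a) = 0 := (mem_ker_iff π _).1 a.toMul.2

noncomputable def θ (x : B) (g : G) : Additive π.ker :=
  Additive.ofMul ⟨σ π x * g * (σ π (x + p π g))⁻¹, by
    rw [mem_ker_iff, p_mul, p_mul, p_inv, hσ, add_neg_cancel]⟩

lemma val_θ (x : B) (g : G) : val π (θ π x g) = σ π x * g * (σ π (x + p π g))⁻¹ := rfl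

noncomputable def κ (γ : G) (x : B) : Additive π.ker :=
  Additive.ofMul ⟨σ π (x + p π γ) * (σ π x)⁻¹ * γ⁻¹, by
    rw [mem_ker_iff, p_mul, p_mul, p_inv, p_inv, hσ]; abel⟩

lemma val_κ (γ : G) (x : B) : val π (κ π γ x) = σ π (x + p π γ) * (σ π x)⁻¹ * γ⁻¹ := rfl

def cj (γ : G) : Additive π.ker →+ Additive π.ker :=
  MonoidHom.toAdditive (MulAut.conjNormal γ : MulAut π.ker).toMonoidHom

omit [Module ℚ B] in
lemma val_cj (γ : G) (a : Additive π.ker) : val π (cj π γ a) = γ * val π a * γ⁻¹ := rfl

lemma θ_mul (x : B) (g h : G) : θ π x (g * h) = θ π x g + θ π (x + p π g) h := by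
  apply val_inj
  simp only [val_add, val_θ, p_mul, add_assoc]
  group

variable [IsMulCommutative π.ker]

noncomputable def Θ0 : (G →₀ RR B) →+ Additive π.ker :=
  Finsupp.liftAddHom fun g => ext fun x => θ π x g

noncomputable def Θ : M2 π →+ Additive π.ker :=
  QuotientAddGroup.lift (NN π).toAddSubgroup (Θ0 π) (by
    have : ∀ v ∈ NN π, ∀ r : RR B, Θ0 π (r • v) = 0 := by
      intro v hv
      induction hv using Submodule.span_induction with
      | mem v hv =>
        obtain ⟨g, h, rfl⟩ := hv
        intro r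
        have := R_ext ((Θ0 π).comp (LinearMap.toSpanSingleton (RR B) _ (rel π g h)).toAddMonoidHom)
          0 (fun x => by
            change Θ0 π (e x • rel π g h) = 0
            simp only [rel, smul_sub, Finsupp.smul_single, smul_eq_mul, mul_one, ← e_add, map_sub,
              Θ0, Finsupp.liftAddHom_apply_single, ext_e, θ_mul]
            abel)
        exact DFunLike.congr_fun this r
      | zero => simp
      | add a b _ _ ha hb => intro r; rw [smul_add, map_add, ha, hb, add_zero]
      | smul c a _ ha => intro r; rw [smul_smul, ha]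
    intro v hv
    simpa using this v hv 1)

lemma Θ_μ (x : B) (g : G) : Θ π (e x • μ π g) = θ π x g := by
  rw [μ, ← Submodule.Quotient.mk_smul]
  change Θ0 π _ = _
  simp [Θ0]

lemma Θ_conj (γ : G) (ν : M2 π) :
    Θ π (e (p π γ) • ν) = cj π γ (Θ π ν) - ext (κ π γ) (bd π ν) := by
  have := M_ext π ((Θ π).comp (DistribSMul.toAddMonoidHom (M2 π) (e (p π γ))))
    ((cj π γ).comp (Θ π) - (ext (κ π γ)).comp (bd π).toAddMonoidHom) (by
      intro x a
      change Θ π (e (p π γ) • e x • μ π a) = cj π γ (Θ π (e x • μ π a)) -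
        ext (κ π γ) (bd π (e x • μ π a))
      rw [smul_smul, ← e_add, Θ_μ, Θ_μ, map_smul, bd_μ, smul_eq_mul, mul_sub, ← e_add, mul_one,
        map_sub, ext_e, ext_e]
      have : θ π (p π γ + x) a + κ π γ (x + p π a) = κ π γ x + cj π γ (θ π x a) := by
        apply val_inj
        simp only [val_add, val_θ, val_κ, val_cj]
        rw [add_comm (p π γ) x, add_right_comm x (p π γ)]
        group
      linear_combination (norm := abel) this)
  exact DFunLike.congr_fun this ν

lemma θ_conj (γ g : G) (hg : p π g = p π γ) (x c : B) (a : Additive π.ker) :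
    θ π x ((σ π x)⁻¹ * (val π a * (σ π (x + c) * g * (σ π (x + c))⁻¹) * (val π a)⁻¹) * σ π x)
      + κ π γ x = a + (θ π (x + c) g + κ π γ (x + c)) + - cj π γ a := by
  apply val_inj
  have : p π ((σ π x)⁻¹ * (val π a * (σ π (x + c) * g * (σ π (x + c))⁻¹) * (val π a)⁻¹) * σ π x)
      = p π γ := by
    simp only [p_mul, p_inv, hg]; abel
  simp only [val_add, val_neg, val_θ, val_κ, val_cj, this, hg]
  group

end Pool.Agent.H.MP_75202e_al
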