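import Pool.Agent.H.MP_75202e_al.MM

set_option autoImplicit false
open scoped IsMulCommutative

namespace Pool.Agent.H.MP_75202e_al

universe u

def SM (B : Type u) [AddCommGroup B] : Submonoid (RR B) where
  carrier := {s | ∃ (ι : Type) (_ : Fintype ι) (_ : Nonempty ι) (x : ι → B), ∑ j, e (x j) = s}
  one_mem' := ⟨Unit, inferInstance, inferInstance, fun _ => 0, by simp [e_zero]⟩
  mul_mem' := by
    rintro _ _ ⟨ι, _, _, x, rfl⟩ ⟨κ, _, _, y, rfl⟩
    refine ⟨ι × κ, inferInstance, inferInstance, fun j => x j.1 + y j.2, ?_⟩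
    simp only [e_add, Fintype.sum_prod_type, Finset.sum_mul_sum]

lemma SM_ne {B : Type u} [AddCommGroup B] {s : RR B} (hs : s ∈ SM B) : s ≠ 0 := by
  obtain ⟨ι, _, _, x, rfl⟩ := hs
  intro h
  have := congrArg (ext fun _ : B => (ULift.up 1 : ULift.{u} ℤ)) h
  rw [map_sum, map_zero] at this
  simp only [ext_e, Finset.sum_const, Finset.card_univ] at this
  have h2 := congrArg ULift.down this
  simp at h2

variable {G B : Type u} [Group G] [AddCommGroup B] [Module ℚ B] (π : G →* Multiplicative B)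

abbrev M3 := LocalizedModule (SM B) (M2 π)
noncomputable abbrev mk3 : M2 π →ₗ[RR B] M3 π := LocalizedModule.mkLinearMap (SM B) (M2 π)

lemma hunit (x : SM B) :
    IsUnit (algebraMap (RR B) (Module.End (RR B) (FractionRing (RR B))) x) := by
  rw [Module.End.isUnit_iff]
  have hx : algebraMap (RR B) (FractionRing (RR B)) x ≠ 0 :=
    (map_ne_zero_iff _ (IsFractionRing.injective _ _)).2 (SM_ne x.2)
  have : ⇑(algebraMap (RR B) (Module.End (RR B) (FractionRing (RR B))) x)
      = fun k => algebraMap (RR B) (FractionRing (RR B)) x * k := by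
    funext k; rw [Module.algebraMap_end_apply, Algebra.smul_def]
  rw [this]
  exact mulLeft_bijective₀ _ hx

noncomputable def bd3 : M3 π →ₗ[RR B] FractionRing (RR B) :=
  IsLocalizedModule.lift (SM B) (mk3 π) ((Algebra.linearMap _ _).comp (bd π)) hunit

lemma bd3_mk (m : M2 π) : bd3 π (mk3 π m) = bd π m • (1 : FractionRing (RR B)) := by
  rw [bd3, IsLocalizedModule.lift_apply, Algebra.smul_def, mul_one]; rfl

noncomputable def CC : Ctx B (RR B) (M3 π) (FractionRing (RR B)) where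
  e := e
  e_add := e_add
  e_zero := e_zero
  one := 1
  bd := bd3 π
  tf b k hb h := by
    refine (smul_eq_zero.1 h).resolve_left fun h0 => hb ?_
    rw [sub_eq_zero, ← e_zero] at h0
    exact AddMonoidAlgebra.of_injective h0
  tfS ι _ _ x k h := (smul_eq_zero.1 h).resolve_left (SM_ne ⟨ι, ‹_›, ‹_›, x, rfl⟩)
  inj ι _ _ x m h := by
    have := ((Module.End.isUnit_iff _).1 (IsLocalizedModule.map_units (mk3 π)
      (⟨∑ j, e (x j), ⟨ι, ‹_›, ‹_›, x, rfl⟩⟩ : SM B))).1
    apply this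
    rw [map_zero]; exact h
  surj ι _ _ x m := ((Module.End.isUnit_iff _).1 (IsLocalizedModule.map_units (mk3 π)
      (⟨∑ j, e (x j), ⟨ι, ‹_›, ‹_›, x, rfl⟩⟩ : SM B))).2 m

noncomputable def ι0 : G →* DD (CC π) := MonoidHom.mk'
  (fun g => ⟨mk3 π (μ π g), p π g, by
    change bd3 π _ = _
    rw [bd3_mk, bd_μ]; rfl⟩)
  (fun g h => by
    ext
    · change mk3 π _ = mk3 π _ + e (p π g) • mk3 π _
      rw [μ_mul, map_add, map_smul]
    · exact p_mul π g h)

variable [IsMulCommutative π.ker] [LinearOrder G] [MulLeftMono G] [MulRightMono G]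

def Φ : Set (DD (CC π)) := {z | ∃ s0 ∈ SM B, ∃ Y0 : M2 π, s0 • z.m = mk3 π Y0 ∧
  ∀ (r : RR B) (ι : Type) [Fintype ι] [Nonempty ι] (x : ι → B), ∑ j, e (x j) = s0 * r →
    ∃ g : ι → G, (∀ j, 1 < g j ∧ p π (g j) = z.b) ∧ Θ π (r • Y0) = ∑ j, θ π (x j) (g j)}

omit [MulLeftMono G] [MulRightMono G] in
lemma Φ_base (g : G) (hg : 1 < g) : ι0 π g ∈ Φ π := by
  refine ⟨1, (SM B).one_mem, μ π g, one_smul _ _, fun r ι _ _ x hx => ⟨fun _ => g,
    fun _ => ⟨hg, rfl⟩, ?_⟩⟩
  rw [one_mul] at hx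
  rw [← hx, Finset.sum_smul, map_sum]
  simp only [Θ_μ]

lemma conj_pos {g : G} (hg : 1 < g) (h : G) : 1 < h * g * h⁻¹ := by
  have := mul_lt_mul_left (mul_lt_mul_right hg h) h⁻¹
  simpa using this

lemma Φ_cone : Cone (Φ π) := by
  refine ⟨?_, ?_, ?_⟩
  · rintro z ⟨s0, hs0, Y0, h1, h2⟩ z' ⟨s0', hs0', Y0', h1', h2'⟩
    refine ⟨s0 * s0', (SM B).mul_mem hs0 hs0', s0' • Y0 + (s0 * e z.b) • Y0', ?_, ?_⟩
    · rw [map_add, map_smul, map_smul, ← h1, ← h1', mul_m]
      change _ • (_ + e z.b • _) = _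
      module
    · intro r ι _ _ x hx
      obtain ⟨g, hg, hΘ⟩ := h2 (r * s0') ι x (by rw [hx]; ring)
      obtain ⟨g', hg', hΘ'⟩ := h2' (r * (s0 * e z.b)) ι (fun j => x j + z.b) (by
        simp only [e_add, ← Finset.sum_mul, hx]; ring)
      refine ⟨fun j => g j * g' j, fun j => ⟨one_lt_mul'' (hg j).1 (hg' j).1, ?_⟩, ?_⟩
      · rw [p_mul, (hg j).2, (hg' j).2, mul_b]
      · rw [smul_add, smul_smul, smul_smul, map_add, hΘ, hΘ', ← Finset.sum_add_distrib]
        simp only [θ_mul, (hg _).2]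
  · rintro z ⟨s0, hs0, Y0, h1, h2⟩ d
    obtain ⟨⟨ν0, s1, hs1⟩, hν⟩ := IsLocalizedModule.surj (SM B) (mk3 π) d.m
    change s1 • d.m = mk3 π ν0 at hν
    have hbν : bd π ν0 = s1 * (e d.b - 1) := by
      have := congrArg (bd3 π) hν
      have hd : bd3 π d.m = (e d.b - 1) • (1 : FractionRing (RR B)) := d.h
      rw [map_smul, hd, bd3_mk, smul_smul, ← sub_eq_zero, ← sub_smul] at this
      exact (sub_eq_zero.1 ((smul_eq_zero.1 this).resolve_right one_ne_zero)).symm
    refine ⟨s0 * s1, (SM B).mul_mem hs0 hs1,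
      (s1 * e d.b) • Y0 - ((e z.b - 1) * s0) • ν0, ?_, ?_⟩
    · rw [map_sub, map_smul, map_smul, ← h1, ← hν, conj_m]
      change _ • (e d.b • _ - (e z.b - 1) • _) = _
      module
    · intro r ι _ _ x hx
      obtain ⟨g, hg, hΘ⟩ := h2 (r * (s1 * e d.b)) ι (fun j => x j + d.b) (by
        simp only [e_add, ← Finset.sum_mul, hx]; ring)
      obtain ⟨j0⟩ := ‹Nonempty ι›
      classical
      set γ := g j0 with hγ
      have hγb : p π γ = z.b := (hg j0).2
      set ν : M2 π := (r * s0) • ν0 with hν'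
      let a : ι → Additive π.ker := fun j => if j = j0 then Θ π ν else 0
      have ha : ∑ j, a j = Θ π ν := by simp [a]
      refine ⟨fun j => (σ π (x j))⁻¹ * (val π (a j) * (σ π (x j + d.b) * g j *
        (σ π (x j + d.b))⁻¹) * (val π (a j))⁻¹) * σ π (x j), fun j => ⟨?_, ?_⟩, ?_⟩
      · have := conj_pos (conj_pos (conj_pos (hg j).1 (σ π (x j + d.b))) (val π (a j)))
          (σ π (x j))⁻¹
        rwa [inv_inv] at this
      · rw [conj_b]
        simp only [p_mul, p_inv, (hg j).2]; abel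
      · have k1 := Finset.sum_congr (s₁ := Finset.univ) rfl fun j _ =>
          θ_conj π γ (g j) ((hg j).2.trans hγb.symm) (x j) d.b (a j)
        simp only [Finset.sum_add_distrib, Finset.sum_neg_distrib, ← map_sum, ha] at k1
        have k2 := Θ_conj π γ ν
        have k3 : bd π ν = ∑ j, e (x j + d.b) - ∑ j, e (x j) := by
          simp only [hν', map_smul, hbν, e_add, ← Finset.sum_mul, hx, smul_eq_mul]; ring
        rw [k3, map_sub, map_sum, map_sum] at k2
        simp only [ext_e] at k2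
        have k4 : r • ((s1 * e d.b) • Y0 - ((e z.b - 1) * s0) • ν0)
            = (r * (s1 * e d.b)) • Y0 - e (p π γ) • ν + ν := by
          rw [hγb, hν']; module
        rw [k4, map_add, map_sub, hΘ, k2]
        linear_combination (norm := abel) -k1
  · rintro ⟨s0, hs0, Y0, h1, h2⟩
    rw [one_m, smul_zero, ← map_zero (mk3 π)] at h1
    obtain ⟨⟨t, ht⟩, h3⟩ := IsLocalizedModule.exists_of_eq (S := SM B) h1
    change t • (0 : M2 π) = t • Y0 at h3
    obtain ⟨ι, _, _, x, hx⟩ := (SM B).mul_mem hs0 ht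
    obtain ⟨g, hg, hΘ⟩ := h2 t ι x hx
    rw [← h3, smul_zero, map_zero] at hΘ
    have : 1 < val π (∑ j, θ π (x j) (g j)) := by
      refine Finset.sum_induction_nonempty _ (fun a => 1 < val π a)
        (fun a b ha hb => one_lt_mul'' ha hb) Finset.univ_nonempty fun j _ => ?_
      rw [val_θ, (hg j).2, one_b, add_zero]
      exact conj_pos (hg j).1 _
    rw [← hΘ] at this
    exact lt_irrefl _ this

theorem embed_of (hs : ∀ x : B, ∃ n : ℕ, 0 < n ∧ ∃ g, n • x = p π g) :
    ∃ (D : Type u) (_ : Group D) (_ : LinearOrder D) (_ : MulLeftMono D) (_ : MulRightMono D)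
      (f : G →* D), Function.Injective f ∧ Monotone f ∧
      ∀ (d : D) (n : ℕ), 0 < n → ∃ x : D, x ^ n = d := by
  have hs' : ∀ b : B, ∃ d : DD (CC π), d.b = b := by
    intro b
    obtain ⟨n, hn, g, hg⟩ := hs b
    obtain ⟨d, hd⟩ := divisible (CC π) (ι0 π g) n hn
    refine ⟨d, ?_⟩
    have := (pow_mb (CC π) d n).2
    rw [hd] at this
    change p π g = _ at this
    rw [← sub_eq_zero]
    apply nsmul_inj hn.ne'
    rw [smul_sub, ← this, hg, sub_self]
  obtain ⟨lo, ml, mr, hq⟩ := ohnishi (Φ π) (Φ_cone π) (H1 (CC π)) (H2 (CC π) hs')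
  have hsm : StrictMono (ι0 π) := by
    intro a b hab
    have := hq _ (Φ_base π (a⁻¹ * b) (by simpa using hab))
    rw [map_mul, map_inv] at this
    simpa using this
  exact ⟨DD (CC π), inferInstance, lo, ml, mr, ι0 π, hsm.injective, hsm.monotone,
    divisible (CC π)⟩

end Pool.Agent.H.MP_75202e_al

namespace Pool.Agent.H.MP_75202e_al

universe u

lemma comm_of_pow {G : Type u} [Group G] [LinearOrder G] [MulLeftMono G] [MulRightMono G]
    {a b : G} {n : ℕ} (hn : n ≠ 0) (h : Commute (a ^ n) b) : Commute a b := by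
  have h1 : (b * a * b⁻¹) ^ n = a ^ n := by
    rw [conj_pow, ← h.eq, mul_inv_cancel_right]
  have h2 : b * a * b⁻¹ = a := by
    rcases lt_trichotomy (b * a * b⁻¹) a with h | h | h
    · exact absurd h1 (pow_lt_pow_left' hn h).ne
    · exact h
    · exact absurd h1 (pow_lt_pow_left' hn h).ne'
  rw [mul_inv_eq_iff_eq_mul] at h2
  exact h2.symm

open TensorProduct in
theorem bludov (G : Type u) [Group G] [LinearOrder G] [MulLeftMono G] [MulRightMono G]
    (hG : ∀ a ∈ commutator G, ∀ b ∈ commutator G, a * b = b * a) :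
    ∃ (D : Type u) (_ : Group D) (_ : LinearOrder D) (_ : MulLeftMono D) (_ : MulRightMono D)
      (f : G →* D), Function.Injective f ∧ Monotone f ∧
      ∀ (d : D) (n : ℕ), 0 < n → ∃ x : D, x ^ n = d := by
  let f := TensorProduct.mk ℤ ℚ (Additive (Abelianization G)) 1
  let π : G →* Multiplicative (ℚ ⊗[ℤ] Additive (Abelianization G)) :=
    (AddMonoidHom.toMultiplicativeRight f.toAddMonoidHom).comp Abelianization.of
  have hp : ∀ g, p π g = f (Additive.ofMul (Abelianization.of g)) := fun _ => rfl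
  have hker : ∀ g ∈ π.ker, ∃ n : ℕ, n ≠ 0 ∧ g ^ n ∈ commutator G := by
    intro g hg
    rw [mem_ker_iff, hp, ← map_zero f] at hg
    obtain ⟨⟨c, hc⟩, h⟩ := IsLocalizedModule.exists_of_eq (S := nonZeroDivisors ℤ) hg
    change c • _ = c • (0 : Additive (Abelianization G)) at h
    rw [smul_zero] at h
    refine ⟨c.natAbs, Int.natAbs_ne_zero.2 (nonZeroDivisors.ne_zero hc), ?_⟩
    rw [← Abelianization.ker_of, MonoidHom.mem_ker, map_pow]
    have h2 : Abelianization.of g ^ c = 1 := h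
    exact (pow_natAbs_eq_one).2 h2
  haveI : IsMulCommutative π.ker := ⟨⟨fun a b => Subtype.ext (by
    obtain ⟨n, hn, ha⟩ := hker a a.2
    obtain ⟨m, hm, hb⟩ := hker b b.2
    exact (comm_of_pow hn (comm_of_pow hm (hG _ hb _ ha)).symm).eq)⟩⟩
  apply embed_of π
  intro x
  obtain ⟨⟨y, c, hc⟩, h⟩ := IsLocalizedModule.surj (nonZeroDivisors ℤ) f x
  change c • x = f y at h
  obtain ⟨g, hg⟩ := QuotientGroup.mk_surjective (s := commutator G) y.toMul
  have hy : f y = p π g := by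
    rw [hp]; congr 1; exact (congrArg Additive.ofMul hg).symm
  refine ⟨c.natAbs, Int.natAbs_pos.2 (nonZeroDivisors.ne_zero hc), ?_⟩
  rcases Int.natAbs_eq c with h1 | h1
  · exact ⟨g, by rw [← hy, ← h, ← natCast_zsmul, ← h1]⟩
  · refine ⟨g⁻¹, ?_⟩
    rw [p_inv, ← hy, ← h, ← natCast_zsmul, ← neg_smul]
    congr 1; omega

end Pool.Agent.H.MP_75202e_al
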