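import Mathlib

set_option autoImplicit false

namespace Pool.Agent.H.MP_75202e_al

variable {D : Type*} [Group D]

def SS (x : D) : Subsemigroup D := Subsemigroup.closure {y | ∃ d : D, y = d * x * d⁻¹}

lemma SS_conj {x z : D} (hz : z ∈ SS x) (d : D) : d * z * d⁻¹ ∈ SS x := by
  induction hz using Subsemigroup.closure_induction with
  | mem y hy =>
    obtain ⟨e, rfl⟩ := hy
    exact Subsemigroup.subset_closure ⟨d * e, by group⟩
  | mul a b _ _ ha hb =>
    have := (SS x).mul_mem ha hb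
    convert this using 1; group

lemma SS_inv {x z : D} (hz : z ∈ SS x) : z⁻¹ ∈ SS x⁻¹ := by
  induction hz using Subsemigroup.closure_induction with
  | mem y hy =>
    obtain ⟨e, rfl⟩ := hy
    exact Subsemigroup.subset_closure ⟨e, by group⟩
  | mul a b _ _ ha hb =>
    rw [mul_inv_rev]; exact (SS x⁻¹).mul_mem hb ha

def Cone (Q : Set D) : Prop :=
  (∀ a ∈ Q, ∀ b ∈ Q, a * b ∈ Q) ∧ (∀ a ∈ Q, ∀ d, d * a * d⁻¹ ∈ Q) ∧ (1 : D) ∉ Q

lemma Cone.SS_sub {Q : Set D} (hQ : Cone Q) {x z : D} (hx : x ∈ Q) (hz : z ∈ SS x) : z ∈ Q := by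
  induction hz using Subsemigroup.closure_induction with
  | mem y hy => obtain ⟨e, rfl⟩ := hy; exact hQ.2.1 _ hx _
  | mul a b _ _ ha hb => exact hQ.1 _ ha _ hb

theorem ohnishi (Q0 : Set D) (h0 : Cone Q0) (h1 : ∀ x : D, x ≠ 1 → (1 : D) ∉ SS x)
    (h2 : ∀ x : D, ∀ b ∈ SS x, ∀ c ∈ SS x, ∃ z ∈ SS b, z ∈ SS c) :
    ∃ (_ : LinearOrder D) (_ : MulLeftMono D) (_ : MulRightMono D), ∀ q ∈ Q0, 1 < q := by
  obtain ⟨Q, hQ0, hQ⟩ := zorn_subset_nonempty {Q : Set D | Cone Q} (by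
    intro c hc hch hne
    refine ⟨⋃₀ c, ⟨?_, ?_, ?_⟩, fun s hs => Set.subset_sUnion_of_mem hs⟩
    · rintro a ⟨s, hs, ha⟩ b ⟨t, ht, hb⟩
      rcases hch.total hs ht with h | h
      · exact ⟨t, ht, (hc ht).1 _ (h ha) _ hb⟩
      · exact ⟨s, hs, (hc hs).1 _ ha _ (h hb)⟩
    · rintro a ⟨s, hs, ha⟩ d
      exact ⟨s, hs, (hc hs).2.1 _ ha d⟩
    · rintro ⟨s, hs, ha⟩
      exact (hc hs).2.2 ha) Q0 h0
  have hC : Cone Q := hQ.prop
  have key : ∀ x : D, x ≠ 1 → x ∉ Q → ∃ w ∈ SS x, w⁻¹ ∈ Q := by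
    intro x hx hxQ
    by_contra hcon
    push Not at hcon
    let Q' : Set D := {y | y ∈ Q ∨ y ∈ SS x ∨ ∃ q ∈ Q, ∃ w ∈ SS x, y = q * w}
    have hC' : Cone Q' := by
      refine ⟨?_, ?_, ?_⟩
      · rintro a (ha | ha | ⟨q, hq, w, hw, rfl⟩) b (hb | hb | ⟨q', hq', w', hw', rfl⟩)
        · exact Or.inl (hC.1 _ ha _ hb)
        · exact Or.inr (Or.inr ⟨a, ha, b, hb, rfl⟩)
        · exact Or.inr (Or.inr ⟨a * q', hC.1 _ ha _ hq', w', hw', by group⟩)
        · exact Or.inr (Or.inr ⟨a * b * a⁻¹, hC.2.1 _ hb _, a, ha, by group⟩)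
        · exact Or.inr (Or.inl ((SS x).mul_mem ha hb))
        · exact Or.inr (Or.inr ⟨a * q' * a⁻¹, hC.2.1 _ hq' _, a * w', (SS x).mul_mem ha hw',
            by group⟩)
        · exact Or.inr (Or.inr ⟨q * (w * b * w⁻¹), hC.1 _ hq _ (hC.2.1 _ hb _), w, hw, by group⟩)
        · exact Or.inr (Or.inr ⟨q, hq, w * b, (SS x).mul_mem hw hb, by group⟩)
        · exact Or.inr (Or.inr ⟨q * (w * q' * w⁻¹), hC.1 _ hq _ (hC.2.1 _ hq' _), w * w',
            (SS x).mul_mem hw hw', by group⟩)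
      · rintro a (ha | ha | ⟨q, hq, w, hw, rfl⟩) d
        · exact Or.inl (hC.2.1 _ ha _)
        · exact Or.inr (Or.inl (SS_conj ha d))
        · exact Or.inr (Or.inr ⟨_, hC.2.1 _ hq d, _, SS_conj hw d, by group⟩)
      · rintro (h | h | ⟨q, hq, w, hw, h⟩)
        · exact hC.2.2 h
        · exact h1 x hx h
        · apply hcon w hw
          rw [inv_eq_of_mul_eq_one_left h.symm]; exact hq
    have : Q' ⊆ Q := hQ.le_of_ge hC' fun y hy => Or.inl hy
    exact hxQ (this (Or.inr (Or.inl (Subsemigroup.subset_closure ⟨1, by simp⟩))))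
  have tot : ∀ x : D, x ≠ 1 → x ∈ Q ∨ x⁻¹ ∈ Q := by
    intro x hx
    by_contra hcon
    push Not at hcon
    obtain ⟨w, hw, hw'⟩ := key x hx hcon.1
    obtain ⟨v, hv, hv'⟩ := key x⁻¹ (inv_ne_one.2 hx) hcon.2
    have hv2 := SS_inv hv
    rw [inv_inv] at hv2
    obtain ⟨z, hz1, hz2⟩ := h2 x w hw _ hv2
    have := hC.1 _ (hC.SS_sub hv' hz2) _ (hC.SS_sub hw' (SS_inv hz1))
    rw [mul_inv_cancel] at this
    exact hC.2.2 this
  let r : D → D → Prop := fun a b => a⁻¹ * b ∈ Q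
  haveI : IsStrictTotalOrder D r :=
    { trichotomous := by
        intro a b h1 h2
        by_contra hne
        rcases tot (a⁻¹ * b) (fun h => hne (inv_mul_eq_one.1 h)) with h | h
        · exact h1 h
        · apply h2
          simpa [r] using h
      irrefl := by intro a h; simp only [r, inv_mul_cancel] at h; exact hC.2.2 h
      trans := by
        intro a b c hab hbc
        have := hC.1 _ hab _ hbc
        simpa [r, mul_assoc] using this }
  classical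
  letI lo : LinearOrder D := linearOrderOfSTO r
  have hlt : ∀ a b : D, a < b ↔ a⁻¹ * b ∈ Q := fun _ _ => Iff.rfl
  refine ⟨lo, ⟨fun c a b h => ?_⟩, ⟨fun c a b h => ?_⟩, fun q hq => ?_⟩
  · rcases h.lt_or_eq with h | rfl
    · apply le_of_lt
      rw [hlt] at h ⊢
      simpa [mul_assoc] using h
    · exact le_rfl
  · rcases h.lt_or_eq with h | rfl
    · apply le_of_lt
      rw [hlt] at h ⊢
      have := hC.2.1 _ h c⁻¹
      simpa [mul_assoc] using this
    · exact le_rfl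
  · rw [hlt]; simpa using hQ0 hq

end Pool.Agent.H.MP_75202e_al
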